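import Pool.Agent.P.MP_8513f1_al.Hyp

set_option autoImplicit false

namespace Pool.Agent.Results.MP_8513f1_al.TauSeven

/-- A nonreal field of characteristic not 2 with torsion index at most 7 has finite
u-invariant. -/
theorem result (F : Type) [Field F] (h2 : ringChar F ≠ 2)
    (hs : ∃ (k : ℕ) (a : Fin k → F), ∑ i, a i ^ 2 = -1)
    (hτ : ∀ (m : ℕ) (w : Fin (2 * m) → F), (∀ i, w i ≠ 0) →
      ∃ (L : Type) (_ : Field L) (_ : Algebra F L),
        FiniteDimensional F L ∧ Module.finrank F L ≤ 7 ∧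
        ∃ W : Submodule L (Fin (2 * m) → L), Module.finrank L W = m ∧
          ∀ v ∈ W, ∑ i, algebraMap F L (w i) * v i ^ 2 = 0) :
    ∃ n : ℕ, ∀ w : Fin n → F, ∃ v : Fin n → F, v ≠ 0 ∧ ∑ i, w i * v i ^ 2 = 0 := by
  have : NeZero (2 : F) := ⟨Ring.two_ne_zero h2⟩
  obtain ⟨k, a, ha⟩ := hs
  exact P.MP_8513f1_al.H7.final hτ (ha ▸ IsSumSq.sum_sq _ a)

end Pool.Agent.Results.MP_8513f1_al.TauSeven
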